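import Pool.Agent.Q144.Steinitz

set_option autoImplicit false

/-!
# MP_aae461_co, Q1: the Helly number `2d + 1` for `k`-almost-neighborly sets

If a finite set `A` is not `k`-almost-neighborly, some point `x` of the hull of a `k`-subset lies in
the relative interior of `conv A`. Starting from an affinely independent subset of that `k`-subset
with `x` in its relative interior, a Steinitz type argument adds points of `A` (at most two per
dimension) until `x` is in the relative interior of the hull of at most `2d + 1` points.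
-/

namespace Pool.Agent.Results.MP_aae461_co.HellyAlmostNeighborly

/-- `A` is `k`-almost-neighborly: the hull of every `k`-subset lies in the relative boundary of the
hull of `A` -/
def KAN {d : ℕ} (k : ℕ) (A : Finset (EuclideanSpace ℝ (Fin d))) : Prop :=
  ∀ B ⊆ A, B.card = k →
    convexHull ℝ (B : Set (EuclideanSpace ℝ (Fin d))) ⊆
      intrinsicFrontier ℝ (convexHull ℝ (A : Set (EuclideanSpace ℝ (Fin d))))

/-- the same with the topological boundary in `ℝ^d` -/
def KAN' {d : ℕ} (k : ℕ) (A : Finset (EuclideanSpace ℝ (Fin d))) : Prop :=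
  ∀ B ⊆ A, B.card = k →
    convexHull ℝ (B : Set (EuclideanSpace ℝ (Fin d))) ⊆
      frontier (convexHull ℝ (A : Set (EuclideanSpace ℝ (Fin d))))

open Q144.RI

theorem not_mem_frontier_of_ri {E : Type*} [NormedAddCommGroup E] [NormedSpace ℝ E]
    {s : Set E} {x : E} (h : x ∈ intrinsicInterior ℝ s) : x ∉ intrinsicFrontier ℝ s := by
  intro h'
  rw [mem_intrinsicInterior] at h
  rw [mem_intrinsicFrontier] at h'
  obtain ⟨y, hy, hyx⟩ := h
  obtain ⟨y', hy', hyx'⟩ := h'
  have : y = y' := Subtype.ext (hyx.trans hyx'.symm)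
  rw [this] at hy
  exact hy'.2 hy

/-- the relative boundary version -/
theorem rel_version (d k : ℕ) (hk : k ≤ 2 * d + 1) (A : Finset (EuclideanSpace ℝ (Fin d)))
    (h : ∀ B ⊆ A, B.card ≤ 2 * d + 1 → KAN k B) : KAN k A := by
  classical
  intro B hBA hBk x hx
  by_contra hcon
  have hxA : x ∈ intrinsicInterior ℝ (convexHull ℝ (A : Set (EuclideanSpace ℝ (Fin d)))) := by
    have h1 : x ∈ intrinsicClosure ℝ (convexHull ℝ (A : Set (EuclideanSpace ℝ (Fin d)))) :=
      subset_intrinsicClosure (convexHull_mono (Finset.coe_subset.2 hBA) hx)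
    rw [← intrinsicInterior_union_intrinsicFrontier] at h1
    exact h1.resolve_right hcon
  have hfin : Module.finrank ℝ (EuclideanSpace ℝ (Fin d)) = d := by simp
  obtain ⟨S, C, h1, h2, h3, h4, h5, h6, -⟩ := key (by rw [hfin]; exact hk) hBA hBk hx hxA
  rw [hfin] at h2
  exact not_mem_frontier_of_ri h6 (h S h1 h2 C h3 h4 h5)

theorem L_top_of_interior {d : ℕ} {A : Finset (EuclideanSpace ℝ (Fin d))}
    {x : EuclideanSpace ℝ (Fin d)}
    (hx : x ∈ interior (convexHull ℝ (A : Set (EuclideanSpace ℝ (Fin d))))) :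
    L A x = ⊤ := by
  have hsub : convexHull ℝ (A : Set (EuclideanSpace ℝ (Fin d))) ⊆ {y | y - x ∈ L A x} := by
    apply convexHull_min
    · intro a ha
      exact mem_L ha
    · intro y hy z hz a b _ _ hab
      have e : a • y + b • z - x = a • (y - x) + b • (z - x) := by
        have : x = (a + b) • x := by rw [hab, one_smul]
        nth_rewrite 1 [this]
        module
      show a • y + b • z - x ∈ L A x
      rw [e]
      exact Submodule.add_mem _ (Submodule.smul_mem _ _ hy) (Submodule.smul_mem _ _ hz)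
  rw [eq_top_iff]
  intro v _
  rw [mem_interior_iff_mem_nhds, Metric.mem_nhds_iff] at hx
  obtain ⟨ε, hε, hb⟩ := hx
  set c : ℝ := ε / (2 * (‖v‖ + 1)) with hc
  have hc0 : 0 < c := by positivity
  have h1 : x + c • v ∈ Metric.ball x ε := by
    rw [Metric.mem_ball, dist_eq_norm, add_sub_cancel_left, norm_smul, Real.norm_of_nonneg hc0.le,
      hc, div_mul_eq_mul_div, div_lt_iff₀ (by positivity)]
    have := norm_nonneg v
    nlinarith
  have h2 := hsub (hb h1)
  have h3 : c • v ∈ L A x := by simpa using h2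
  have h4 := Submodule.smul_mem (L A x) (1 / c) h3
  rwa [smul_smul, one_div_mul_cancel hc0.ne', one_smul] at h4

theorem interior_of_ri_of_top {d : ℕ} {S : Finset (EuclideanSpace ℝ (Fin d))}
    {x : EuclideanSpace ℝ (Fin d)}
    (hx : x ∈ intrinsicInterior ℝ (convexHull ℝ (S : Set (EuclideanSpace ℝ (Fin d)))))
    (hL : L S x = ⊤) : x ∈ interior (convexHull ℝ (S : Set (EuclideanSpace ℝ (Fin d)))) := by
  obtain ⟨hxa, ε, hε, h⟩ := mem_ri.1 hx
  rw [mem_interior_iff_mem_nhds, Metric.mem_nhds_iff]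
  refine ⟨ε, hε, fun w hw => h w ?_ hw⟩
  have h1 : w - x ∈ L S x := by rw [hL]; trivial
  have h2 : L S x ≤
      (affineSpan ℝ (convexHull ℝ (S : Set (EuclideanSpace ℝ (Fin d))))).direction := by
    unfold L
    rw [Submodule.span_le]
    rintro _ ⟨s, hs, rfl⟩
    exact AffineSubspace.vsub_mem_direction
      (subset_affineSpan ℝ _ (subset_convexHull ℝ _ hs)) hxa
  have h3 := AffineSubspace.vadd_mem_of_mem_direction (h2 h1) hxa
  simpa using h3

/-- the version with the boundary in `ℝ^d`, as an equivalence -/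
theorem top_version (d k : ℕ) (hk : k ≤ 2 * d + 1) (A : Finset (EuclideanSpace ℝ (Fin d))) :
    KAN' k A ↔ ∀ B ⊆ A, B.card ≤ 2 * d + 1 → KAN' k B := by
  classical
  constructor
  · intro h B hBA _ C hCB hCk x hx
    have h1 := h C (hCB.trans hBA) hCk hx
    have h2 : x ∈ convexHull ℝ (B : Set (EuclideanSpace ℝ (Fin d))) :=
      convexHull_mono (Finset.coe_subset.2 hCB) hx
    refine ⟨subset_closure h2, fun h3 => h1.2 ?_⟩
    exact interior_mono (convexHull_mono (Finset.coe_subset.2 hBA)) h3
  · intro h B hBA hBk x hx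
    have hxc : x ∈ convexHull ℝ (A : Set (EuclideanSpace ℝ (Fin d))) :=
      convexHull_mono (Finset.coe_subset.2 hBA) hx
    refine ⟨subset_closure hxc, fun hint => ?_⟩
    have hfin : Module.finrank ℝ (EuclideanSpace ℝ (Fin d)) = d := by simp
    obtain ⟨S, C, h1, h2, h3, h4, h5, h6, h7⟩ := key (by rw [hfin]; exact hk) hBA hBk hx
      (interior_subset_intrinsicInterior hint)
    rw [hfin] at h2
    have h8 := interior_of_ri_of_top h6 (h7.trans (L_top_of_interior hint))
    exact (h S h1 h2 C h3 h4 h5).2 h8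

/-- five points in three-space: the vertices of a tetrahedron and the midpoint of an edge -/
noncomputable def pt : Fin 5 → EuclideanSpace ℝ (Fin 3) :=
  ![!₂[0, 0, 0], !₂[2, 0, 0], !₂[1, 0, 0], !₂[0, 1, 0], !₂[0, 0, 1]]

theorem pt_nonneg (j : Fin 5) (i : Fin 3) : 0 ≤ pt j i := by
  fin_cases j <;> fin_cases i <;> simp [pt]

theorem pt_ne : pt 1 ≠ pt 0 ∧ pt 2 ≠ pt 0 ∧ pt 2 ≠ pt 1 := by
  refine ⟨?_, ?_, ?_⟩ <;> intro h <;> have h0 := congrArg (fun v => v 0) h <;>
    simp [pt] at h0

/-- the coordinate in which a point may be nonzero (3: none) -/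
def co : Fin 5 → ℕ := ![3, 0, 0, 1, 2]

theorem pt_zero (j : Fin 5) (i : Fin 3) (h : (i : ℕ) ≠ co j) : pt j i = 0 := by
  fin_cases j <;> fin_cases i <;> simp [pt, co] at h ⊢

theorem co_common : ∀ j l : Fin 5, ∃ i : Fin 3, (i : ℕ) ≠ co j ∧ (i : ℕ) ≠ co l := by decide

theorem pt_common (j l : Fin 5) : ∃ i : Fin 3, pt j i = 0 ∧ pt l i = 0 := by
  obtain ⟨i, h1, h2⟩ := co_common j l
  exact ⟨i, pt_zero j i h1, pt_zero l i h2⟩

open Classical in
/-- a set that is 2-almost-neighborly in the sense of the relative boundary, with a subset that is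
not: the reverse implication of the relative version fails for a trivial reason -/
theorem trivial_failure : ∃ A : Finset (EuclideanSpace ℝ (Fin 3)),
    KAN 2 A ∧ ∃ B ⊆ A, B.card ≤ 3 ∧ ¬ KAN 2 B := by
  refine ⟨Finset.univ.image pt, ?_, {pt 0, pt 2, pt 1}, ?_, ?_, ?_⟩
  · intro B hBA hB2 x hx
    have hxA : x ∈ convexHull ℝ ((Finset.univ.image pt : Finset _) : Set (EuclideanSpace ℝ (Fin 3)))
        := convexHull_mono (Finset.coe_subset.2 hBA) hx
    obtain ⟨i, hi⟩ : ∃ i : Fin 3, ∀ p ∈ B, p i = 0 := by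
      obtain ⟨p, q, -, rfl⟩ := Finset.card_eq_two.1 hB2
      obtain ⟨j, -, rfl⟩ := Finset.mem_image.1 (hBA (Finset.mem_insert_self p _))
      obtain ⟨l, -, rfl⟩ := Finset.mem_image.1 (hBA (Finset.mem_insert_of_mem
        (Finset.mem_singleton_self q)))
      obtain ⟨i, h1, h2⟩ := pt_common j l
      refine ⟨i, fun p hp => ?_⟩
      rcases Finset.mem_insert.1 hp with h | h
      · rw [h]; exact h1
      · rw [Finset.mem_singleton.1 h]; exact h2
    have hxi : x i = 0 := by
      obtain ⟨w, _, _, hwx⟩ := Finset.mem_convexHull'.1 hx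
      rw [← hwx]
      simp only [WithLp.ofLp_sum, Finset.sum_apply, PiLp.smul_apply, smul_eq_mul]
      exact Finset.sum_eq_zero fun p hp => by rw [hi p hp, mul_zero]
    have hcl := subset_intrinsicClosure (𝕜 := ℝ) hxA
    rw [← intrinsicInterior_union_intrinsicFrontier] at hcl
    refine hcl.resolve_left fun hri => ?_
    obtain ⟨w, hw, hrel⟩ := posRel_of_ri hri
    have h1 := congrArg (fun v => v i) hrel
    simp only [WithLp.ofLp_sum, Finset.sum_apply, PiLp.smul_apply, smul_eq_mul, PiLp.sub_apply,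
      hxi, sub_zero, PiLp.zero_apply] at h1
    have h2 : ∀ p ∈ Finset.univ.image pt, 0 ≤ w p * p i := by
      intro p hp
      have h3 := (hw p hp).le
      obtain ⟨j, -, rfl⟩ := Finset.mem_image.1 hp
      exact mul_nonneg h3 (pt_nonneg j i)
    have h3 := (Finset.sum_eq_zero_iff_of_nonneg h2).1 h1
    have h4 : ∃ j, 0 < pt j i := by
      fin_cases i
      · exact ⟨1, by simp [pt]⟩
      · exact ⟨3, by simp [pt]⟩
      · exact ⟨4, by simp [pt]⟩
    obtain ⟨j, hj⟩ := h4
    have h5 : pt j ∈ Finset.univ.image pt := Finset.mem_image_of_mem pt (Finset.mem_univ j)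
    have h6 := h3 _ h5
    have h7 := mul_pos (hw _ h5) hj
    exact absurd h6 h7.ne'
  · intro p hp
    simp only [Finset.mem_insert, Finset.mem_singleton] at hp
    rcases hp with rfl | rfl | rfl <;> exact Finset.mem_image_of_mem pt (Finset.mem_univ _)
  · exact Finset.card_le_three
  · intro h
    obtain ⟨n1, n2, n3⟩ := pt_ne
    have h1 : pt 2 ∈ convexHull ℝ (({pt 0, pt 2} : Finset (EuclideanSpace ℝ (Fin 3))) : Set _) :=
      subset_convexHull ℝ _ (by simp)
    have h2 := h {pt 0, pt 2} (by
      intro p hp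
      simp only [Finset.mem_insert, Finset.mem_singleton] at hp ⊢
      tauto) (Finset.card_pair n2.symm) h1
    refine not_mem_frontier_of_ri ?_ h2
    apply ri_of_posRel ⟨pt 0, by simp⟩
    refine ⟨fun _ => 1, fun _ _ => one_pos, ?_⟩
    rw [Finset.sum_insert (by simp [n2.symm, n1.symm]), Finset.sum_insert (by simp [n3]),
      Finset.sum_singleton]
    ext i
    fin_cases i <;> simp [pt] <;> norm_num

/-- **Q1**: for `2 ≤ k ≤ 2d + 1` there is no finite set that is not `k`-almost-neighborly although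
all its subsets with at most `2d + 1` points are (relative boundary, as in the problem file); and
with the boundary in `ℝ^d` the full equivalence holds. The last part records that the other half of
the equivalence fails for the relative boundary for a trivial reason. -/
theorem result : (∀ d k : ℕ, 1 ≤ d → 2 ≤ k → k ≤ 2 * d + 1 →
    ∀ A : Finset (EuclideanSpace ℝ (Fin d)),
      ((∀ B ⊆ A, B.card ≤ 2 * d + 1 → KAN k B) → KAN k A) ∧
      (KAN' k A ↔ ∀ B ⊆ A, B.card ≤ 2 * d + 1 → KAN' k B)) ∧
    ∃ A : Finset (EuclideanSpace ℝ (Fin 3)), KAN 2 A ∧ ∃ B ⊆ A, B.card ≤ 3 ∧ ¬ KAN 2 B :=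
  ⟨fun d k _ _ hk A => ⟨rel_version d k hk A, top_version d k hk A⟩, trivial_failure⟩

end Pool.Agent.Results.MP_aae461_co.HellyAlmostNeighborly
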